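import Pool.Agent.Lib.MP_ed0562_lc.Separation

/-!
# The two lattices of closed Medvedev degrees are not elementarily equivalent

The separating sentence says that the join of two meet-prime elements is meet-prime. It is true
for closed subsets of Cantor space and false for closed subsets of Baire space.
-/

namespace Pool.Agent.Results.MP_ed0562_lc.NotElemEquiv

open Pool.Agent.Lib.MP_ed0562_lc FirstOrder FirstOrder.Language

/-- The term `t ⊔ s`. -/
def supT {n : ℕ} (t s : latticeLanguage.Term (Empty ⊕ Fin n)) :
    latticeLanguage.Term (Empty ⊕ Fin n) :=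
  Functions.apply₂ (L := latticeLanguage) LatticeFunc.sup t s

/-- The term `t ⊓ s`. -/
def infT {n : ℕ} (t s : latticeLanguage.Term (Empty ⊕ Fin n)) :
    latticeLanguage.Term (Empty ⊕ Fin n) :=
  Functions.apply₂ (L := latticeLanguage) LatticeFunc.inf t s

/-- The formula `t ≤ s`, written as `t ⊔ s = s`. -/
def leF {n : ℕ} (t s : latticeLanguage.Term (Empty ⊕ Fin n)) :
    latticeLanguage.BoundedFormula Empty n := (supT t s).bdEqual s

/-- The formula saying that `t` is meet-prime. -/
def primeF (t : latticeLanguage.Term (Empty ⊕ Fin 4)) : latticeLanguage.BoundedFormula Empty 2 :=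
  ((leF (infT (&2) (&3)) t).imp (leF (&2) t ⊔ leF (&3) t)).all.all

/-- The sentence saying that the join of two meet-prime elements is meet-prime. -/
def sentence : latticeLanguage.Sentence :=
  ((primeF (&0)).imp ((primeF (&1)).imp (primeF (supT (&0) (&1))))).all.all

theorem realize_sentence (M : Type*) [Lattice M] :
    M ⊨ sentence ↔ ∀ a b : M, MeetPrime a → MeetPrime b → MeetPrime (a ⊔ b) := by
  have hsup : ∀ {n : ℕ} (t s : latticeLanguage.Term (Empty ⊕ Fin n)) (v : Empty ⊕ Fin n → M),
      (supT t s).realize v = t.realize v ⊔ s.realize v := by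
    intro n t s v
    exact Term.realize_functions_apply₂
  have hinf : ∀ {n : ℕ} (t s : latticeLanguage.Term (Empty ⊕ Fin n)) (v : Empty ⊕ Fin n → M),
      (infT t s).realize v = t.realize v ⊓ s.realize v := by
    intro n t s v
    exact Term.realize_functions_apply₂
  have hle : ∀ {n : ℕ} (t s : latticeLanguage.Term (Empty ⊕ Fin n)) (v : Empty → M)
      (w : Fin n → M),
      (leF t s).Realize v w ↔ t.realize (Sum.elim v w) ≤ s.realize (Sum.elim v w) := by
    intro n t s v w
    rw [leF, BoundedFormula.realize_bdEqual, hsup, sup_eq_right]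
  have hprime : ∀ (t : latticeLanguage.Term (Empty ⊕ Fin 4)) (v : Empty → M) (w : Fin 2 → M)
      (a : M), (∀ e f : M, t.realize (Sum.elim v (Fin.snoc (Fin.snoc w e : Fin 3 → M) f)) = a) →
      ((primeF t).Realize v w ↔ MeetPrime a) := by
    intro t v w a ha
    unfold primeF MeetPrime
    rw [BoundedFormula.realize_all]
    refine forall_congr' fun e => ?_
    rw [BoundedFormula.realize_all]
    refine forall_congr' fun f => ?_
    rw [BoundedFormula.realize_imp, BoundedFormula.realize_sup, hle, hle, hle, hinf, ha]
    rfl
  unfold Sentence.Realize Formula.Realize sentence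
  rw [BoundedFormula.realize_all]
  refine forall_congr' fun a => ?_
  rw [BoundedFormula.realize_all]
  refine forall_congr' fun b => ?_
  rw [BoundedFormula.realize_imp, BoundedFormula.realize_imp, hprime _ _ _ a, hprime _ _ _ b,
    hprime _ _ _ (a ⊔ b)]
  · intro e f; rw [hsup]; rfl
  · intro e f; rfl
  · intro e f; rfl

/-- The lattices of Medvedev degrees of nonempty closed subsets of `ω^ω` and of `2^ω` are not
elementarily equivalent in the language of lattices. -/
theorem result : ¬ latticeLanguage.ElementarilyEquivalent
    (MedvedevDegrees baire) (MedvedevDegrees cantor) := by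
  intro h
  have h1 := (h.realize_sentence sentence).2
    ((realize_sentence _).2 cantor_meetPrime_sup)
  obtain ⟨a, b, ha, hb, hab⟩ := baire_not_meetPrime_sup
  exact hab ((realize_sentence _).1 h1 a b ha hb)

end Pool.Agent.Results.MP_ed0562_lc.NotElemEquiv
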